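import Pool.Agent.Helper935.OW.Final
import Pool.Agent.Helper935.OW.Values

open Pool.Agent.Helper935.OW

namespace Pool.Agent.Results.MP_bdf388_an.Orthowidth

/-- The order of the orthowidths of `W^r_1` in `L_infty`, for every `r > 1` and every dimension. -/
theorem result (d : ℕ) (hd : 1 ≤ d) (r : ℝ) (hr : 1 < r) :
    (∃ c₁ c₂ : ℝ, 0 < c₁ ∧ 0 < c₂ ∧ ∀ m : ℕ, 2 ≤ m →
      ENNReal.ofReal (c₁ * ((m : ℝ) ^ (-(r - 1)) *
          Real.log m ^ (r * ((d : ℝ) - 1) - (vanishingOrder d r : ℝ)))) ≤ orthowidth d r m ∧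
        orthowidth d r m ≤ ENNReal.ofReal (c₂ * ((m : ℝ) ^ (-(r - 1)) *
          Real.log m ^ (r * ((d : ℝ) - 1) - (vanishingOrder d r : ℝ))))) ∧
    (vanishingOrder d r ≤ d - 1 ∧ PosPolyVanishes d r (vanishingOrder d r) ∧
      (vanishingOrder d r < d - 1 → ¬ PosPolyVanishes d r (vanishingOrder d r + 1))) ∧
    (∀ k : ℕ, r = 2 * k → vanishingOrder d r = 0) ∧
    (∀ k : ℕ, r = 2 * k + 1 → vanishingOrder d r = d - 1) ∧
    (∀ t : ℝ, t = Real.arccos (Real.cos (Real.pi * r)) →
      (d * t ≤ Real.pi → vanishingOrder d r = 0) ∧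
      (Real.pi / 2 < t → t < Real.pi → vanishingOrder d r = d / 2) ∧
      (0 < t → t < Real.pi → d / (⌊Real.pi / t⌋₊ + 1) ≤ vanishingOrder d r ∧
        2 * vanishingOrder d r ≤ d ∧
        (0 < vanishingOrder d r → vanishingOrder d r * Real.pi < d * t))) := by
  obtain ⟨d', rfl⟩ : ∃ d', d = d' + 1 := ⟨d - 1, by omega⟩
  have hspec := vanishingOrder_spec (d' + 1) r
  refine ⟨?_, hspec, fun k hk => value_zero (ang_even hk), fun k hk => value_pi (ang_odd hk), ?_⟩
  · set N := vanishingOrder (d' + 1) r with hN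
    have hNle : N ≤ d' := by
      have := hspec.1
      rwa [Nat.add_sub_cancel] at this
    obtain ⟨c₁, h₁, hlow⟩ := lower_final (d' := d') hr hNle (by
      rcases Nat.lt_or_ge N d' with h | h
      · right; exact hspec.2.2 (by rwa [Nat.add_sub_cancel])
      · left; omega)
    obtain ⟨c₂, h₂, hup⟩ := upper_final (d' := d') hr hNle hspec.2.1
    refine ⟨c₁, c₂, h₁, h₂, fun m hm => ?_⟩
    have hexp : r * (((d' + 1 : ℕ) : ℝ) - 1) - (N : ℝ) = r * d' - N := by push_cast; ring
    rw [hexp]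
    exact ⟨hlow m hm, hup m hm⟩
  · intro t ht
    have ht' : ang r = t := ht.symm
    refine ⟨?_, ?_, ?_⟩
    · intro h; exact value_small hd (by rw [ht']; exact h)
    · intro h1 h2; exact value_large hd (by rw [ht']; exact h1) (by rw [ht']; exact h2)
    · intro h1 h2
      have := value_bounds (d := d' + 1) (r := r) hd (by rw [ht']; exact h1) (by rw [ht']; exact h2)
      rw [ht'] at this
      exact this

end Pool.Agent.Results.MP_bdf388_an.Orthowidth
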